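import Mathlib

/-!
# The converse of the stepping-up lemma

Under GCH, if `κ ↛ (η_k; k < γ)^n`, where the `η_k` are cardinals, then
`2^κ ↛ (η_k ∔ 1; k < γ)^(n+1)`, where `η_k ∔ 1` is the ordinal successor of `η_k`.

The point is that `2^κ = κ⁺` under GCH, and that a set of order type `η_k ∔ 1` has a last element.
For each `m < κ⁺` fix an injection `e_m` of `m` into `κ`, let `d` be a colouring of the `n`-element
subsets of `κ` without homogeneous sets, and give the colour `d (e_m [a])` to `a ∪ {m}` if `a` is an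
`n`-element subset of `m`. If `H ∪ {m}` is homogeneous of colour `k` and of order type `η_k ∔ 1`,
with last element `m`, then `e_m [H]` has cardinality `η_k`, so that it contains a set of order type
`η_k`, and it is homogeneous of colour `k` for `d`.

GCH is used only in the form `2^κ = κ⁺`; the statement with `κ⁺` in place of `2^κ` holds in ZFC for
all cardinals `κ`, all `n`, all sets of colours and all cardinals `η_k`.
-/

set_option autoImplicit false

universe u

open Cardinal Ordinal Order

namespace Pool.Agent.Results.MP_2e9b9b_lc.SteppingUpConverse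

/-- The partition relation `κ → (η_k; k ∈ K)^m`: for every colouring `c` of the `m`-element subsets
of `κ` (which is identified with its initial ordinal) with colours in `K` there are `k ∈ K` and a
set `H ⊆ κ` of order type `η_k` all of whose `m`-element subsets have the colour `k`. -/
def Arrow (κ : Cardinal.{u}) (m : ℕ) (K : Type u) (η : K → Ordinal.{u}) : Prop :=
  ∀ c : {s : Finset κ.ord.ToType // s.card = m} → K,
    ∃ (k : K) (H : Set κ.ord.ToType), typeLT H = η k ∧
      ∀ s : {s : Finset κ.ord.ToType // s.card = m}, (s.1 : Set κ.ord.ToType) ⊆ H → c s = k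

/-- A set of order type at least `o` has a subset of order type `o`. -/
theorem exists_subset_type {α : Type u} [LinearOrder α] [WellFoundedLT α] (T : Set α)
    (o : Ordinal.{u}) (h : o ≤ typeLT T) : ∃ H ⊆ T, typeLT H = o := by
  rw [← type_toType o, type_le_iff'] at h
  obtain ⟨f⟩ := h
  let g : o.ToType ↪o α := (OrderEmbedding.ofStrictMono (fun x => (f x : α))
    (fun x y hxy => f.map_rel_iff.2 hxy))
  refine ⟨Set.range g, ?_, ?_⟩
  · rintro _ ⟨x, rfl⟩
    exact (f x).2
  · exact (type_eq.2 ⟨g.orderIso.symm.toRelIsoLT⟩).trans (type_toType o)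

/-- The one-step form of the negative relation. -/
theorem step {κ : Cardinal.{u}} {n : ℕ} {K : Type u} {η : K → Cardinal.{u}}
    (h : ¬ Arrow κ n K fun k => (η k).ord) :
    ¬ Arrow (succ κ) (n + 1) K fun k => succ (η k).ord := by
  classical
  intro hA
  apply h
  clear h
  intro d
  -- injections of the proper initial segments into `κ`
  have he : ∀ m : (succ κ).ord.ToType, Nonempty ({x // x < m} ↪ κ.ord.ToType) := by
    intro m
    have h1 : #(Set.Iio m) < succ κ := by
      have h0 := mk_Iio_lt m (by rw [mk_ord_toType, type_toType])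
      rwa [mk_ord_toType] at h0
    have h2 : #{x // x < m} ≤ #κ.ord.ToType := by
      rw [mk_ord_toType]
      exact lt_succ_iff.1 h1
    exact h2
  let e : ∀ m : (succ κ).ord.ToType, {x // x < m} ↪ κ.ord.ToType := fun m => (he m).some
  have hcard : ∀ (s : Finset (succ κ).ord.ToType) (m : (succ κ).ord.ToType), s.card = n + 1 →
      m ∈ s → (∀ x ∈ s, x ≤ m) → ((s.subtype (· < m)).map (e m)).card = n := by
    intro s m hs hm hmax
    rw [Finset.card_map, Finset.card_subtype]
    have h1 : s.filter (· < m) = s.erase m := by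
      ext x
      simp only [Finset.mem_filter, Finset.mem_erase]
      constructor
      · rintro ⟨hx, hxm⟩
        exact ⟨hxm.ne, hx⟩
      · rintro ⟨hxm, hx⟩
        exact ⟨hx, lt_of_le_of_ne (hmax x hx) hxm⟩
    rw [h1, Finset.card_erase_of_mem hm, hs, Nat.add_sub_cancel]
  have hne : ∀ s : {s : Finset (succ κ).ord.ToType // s.card = n + 1}, s.1.Nonempty := fun s => by
    rw [← Finset.card_pos, s.2]
    exact Nat.succ_pos n
  let c : {s : Finset (succ κ).ord.ToType // s.card = n + 1} → K := fun s =>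
    d ⟨(s.1.subtype (· < s.1.max' (hne s))).map (e (s.1.max' (hne s))),
      hcard _ _ s.2 (Finset.max'_mem _ _) fun x hx => Finset.le_max' _ _ hx⟩
  have hc : ∀ (s : {s : Finset (succ κ).ord.ToType // s.card = n + 1}) (m : (succ κ).ord.ToType)
      (hm : m ∈ s.1) (hmax : ∀ x ∈ s.1, x ≤ m),
      c s = d ⟨(s.1.subtype (· < m)).map (e m), hcard _ _ s.2 hm hmax⟩ := by
    intro s m hm hmax
    have h1 : m = s.1.max' (hne s) :=
      le_antisymm (Finset.le_max' _ _ hm) (hmax _ (Finset.max'_mem _ _))
    subst h1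
    rfl
  obtain ⟨k, H, hH, hk⟩ := hA c
  -- the last element of `H`
  have hlt : (η k).ord < typeLT H := by
    rw [hH]
    exact lt_succ _
  let m : H := enum (α := H) (· < ·) ⟨(η k).ord, hlt⟩
  have hm : typein (α := H) (· < ·) m = (η k).ord := typein_enum _ hlt
  -- the set of its predecessors has cardinality `η k`
  let T : Set κ.ord.ToType := {y | ∃ x : {x // x < (m : (succ κ).ord.ToType)}, x.1 ∈ H ∧ e m x = y}
  have hT : #T = η k := by
    have h1 : #{x : H // x < m} = η k := by
      have h2 := congrArg Ordinal.card hm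
      rw [card_ord] at h2
      rw [← h2]
      rfl
    rw [← h1]
    refine (Cardinal.mk_congr (Equiv.ofBijective
      (fun x : {x : H // x < m} => (⟨e m ⟨x.1.1, x.2⟩, ⟨⟨x.1.1, x.2⟩, x.1.2, rfl⟩⟩ : T)) ?_)).symm
    constructor
    · intro x y hxy
      have h3 := (e m).injective (congrArg Subtype.val hxy)
      rw [Subtype.mk.injEq] at h3
      exact Subtype.ext (Subtype.ext h3)
    · rintro ⟨y, x, hx, rfl⟩
      exact ⟨⟨⟨x.1, hx⟩, x.2⟩, rfl⟩
  obtain ⟨H', hH'T, hH'⟩ := exists_subset_type T (η k).ord (by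
    rw [ord_le]
    exact hT.symm.le)
  refine ⟨k, H', hH', ?_⟩
  rintro ⟨s, hs⟩ hsH
  -- pull `s` back
  let s₀ : Finset {x // x < (m : (succ κ).ord.ToType)} := s.preimage (e m) (e m).injective.injOn
  have hs₀ : s₀.map (e m) = s := by
    ext y
    simp only [s₀, Finset.mem_map, Finset.mem_preimage]
    constructor
    · rintro ⟨x, hx, rfl⟩
      exact hx
    · intro hy
      obtain ⟨x, _, rfl⟩ := hH'T (hsH hy)
      exact ⟨x, hy, rfl⟩
  have hs₀H : ∀ x ∈ s₀, x.1 ∈ H := by
    intro x hx
    have h1 : e m x ∈ s := by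
      rw [← hs₀]
      exact Finset.mem_map_of_mem _ hx
    obtain ⟨y, hy, hyx⟩ := hH'T (hsH h1)
    rw [(e m).injective hyx] at hy
    exact hy
  let t : Finset (succ κ).ord.ToType :=
    insert (m : (succ κ).ord.ToType) (s₀.map (Function.Embedding.subtype _))
  have hmem : ∀ x, x ∈ t ↔ x = m ∨ ∃ y ∈ s₀, y.1 = x := by
    intro x
    simp [t]
  have hmt : (m : (succ κ).ord.ToType) ∈ t := (hmem _).2 (Or.inl rfl)
  have hmax : ∀ x ∈ t, x ≤ (m : (succ κ).ord.ToType) := by
    intro x hx
    rcases (hmem x).1 hx with rfl | ⟨y, _, rfl⟩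
    · exact le_rfl
    · exact y.2.le
  have hsub : t.subtype (· < (m : (succ κ).ord.ToType)) = s₀ := by
    ext x
    rw [Finset.mem_subtype, hmem]
    constructor
    · rintro (h1 | ⟨y, hy, h1⟩)
      · exact absurd h1 x.2.ne
      · rwa [← Subtype.ext h1]
    · intro hx
      exact Or.inr ⟨x, hx, rfl⟩
  have htc : t.card = n + 1 := by
    have h1 : (m : (succ κ).ord.ToType) ∉ s₀.map (Function.Embedding.subtype _) := by
      intro h2
      obtain ⟨y, _, hy⟩ := Finset.mem_map.1 h2
      exact y.2.ne hy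
    rw [Finset.card_insert_of_notMem h1, Finset.card_map, ← Finset.card_map (e m), hs₀, hs]
  have h1 := hk ⟨t, htc⟩ (by
    intro x hx
    rcases (hmem x).1 hx with rfl | ⟨y, hy, rfl⟩
    · exact m.2
    · exact hs₀H y hy)
  rw [hc ⟨t, htc⟩ m hmt hmax] at h1
  rw [← h1]
  congr 1
  apply Subtype.ext
  change s = (t.subtype (· < (m : (succ κ).ord.ToType))).map (e m)
  rw [hsub, hs₀]

/-- **The converse of the stepping-up lemma.** Here `η_k ∔ 1` is the successor of the ordinal
`η_k`, and `n`, the set `K` of colours and the cardinals `η_k` are arbitrary.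
(1) (ZFC) If `κ ↛ (η_k; k ∈ K)^n` then `κ⁺ ↛ (η_k ∔ 1; k ∈ K)^(n+1)`.
(2) (GCH) If `κ` is infinite and `κ ↛ (η_k; k ∈ K)^n` then `2^κ ↛ (η_k ∔ 1; k ∈ K)^(n+1)`. -/
theorem result :
    (∀ (κ : Cardinal.{u}) (n : ℕ) (K : Type u) (η : K → Cardinal.{u}),
      ¬ Arrow κ n K (fun k => (η k).ord) →
        ¬ Arrow (succ κ) (n + 1) K fun k => succ (η k).ord) ∧
    ((∀ κ : Cardinal.{u}, ℵ₀ ≤ κ → 2 ^ κ = succ κ) →
      ∀ (κ : Cardinal.{u}) (n : ℕ) (K : Type u) (η : K → Cardinal.{u}), ℵ₀ ≤ κ →
        ¬ Arrow κ n K (fun k => (η k).ord) →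
          ¬ Arrow (2 ^ κ) (n + 1) K fun k => succ (η k).ord) :=
  ⟨fun _ _ _ _ h => step h, fun gch κ _ _ _ hκ h => by
    rw [gch κ hκ]
    exact step h⟩

end Pool.Agent.Results.MP_2e9b9b_lc.SteppingUpConverse
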